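import Pool.Agent.Lib.MP_72b724_gt.Interfaces

/-!
# MP_72b724_gt, module ALT: alternation
-/

open scoped BigOperators Nat
open Equiv Equiv.Perm

namespace Pool.Agent.Lib.MP_72b724_gt.H68

noncomputable section

theorem delta_apply (F : FSet) {m : ℕ} (f : Bdd (F.X m)) (x : F.X (m + 1)) :
    (F.δ f).1 x = ∑ i : Fin (m + 2), (-1 : ℝ) ^ (i : ℕ) * f.1 (F.d i x) := by
  unfold FSet.δ
  rw [LinearMap.sum_apply, AddSubmonoidClass.coe_finsetSum, Finset.sum_apply]
  rfl

/-- The signed sum over all permutations. -/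
def sg {X : Type} {m : ℕ} (f : (Fin m → X) → ℝ) (u : Fin m → X) : ℝ :=
  ∑ s : Perm (Fin m), ((sign s : ℤ) : ℝ) * f (fun i => u (s i))

theorem sign_cast_mul {m : ℕ} (s t : Perm (Fin m)) :
    ((sign (s * t) : ℤ) : ℝ) = ((sign s : ℤ) : ℝ) * ((sign t : ℤ) : ℝ) := by
  rw [Perm.sign_mul]
  push_cast
  rfl

theorem sign_cast_sq {m : ℕ} (s : Perm (Fin m)) :
    ((sign s : ℤ) : ℝ) * ((sign s : ℤ) : ℝ) = 1 := by
  rcases Int.units_eq_one_or (sign s) with h | h <;> rw [h] <;> norm_num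

theorem sign_cast_abs {m : ℕ} (s : Perm (Fin m)) : |((sign s : ℤ) : ℝ)| = 1 := by
  rcases Int.units_eq_one_or (sign s) with h | h <;> rw [h] <;> norm_num

theorem sg_perm {X : Type} {m : ℕ} (f : (Fin m → X) → ℝ) (t : Perm (Fin m)) (u : Fin m → X) :
    sg f (fun i => u (t i)) = ((sign t : ℤ) : ℝ) * sg f u := by
  unfold sg
  rw [Finset.mul_sum]
  refine Fintype.sum_bijective (fun s => t * s) (Group.mulLeft_bijective t) _ _ fun s => ?_
  rw [sign_cast_mul, ← mul_assoc, ← mul_assoc, sign_cast_sq, one_mul]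
  rfl

theorem sg_right {X : Type} {m : ℕ} (f : (Fin m → X) → ℝ) (t : Perm (Fin m)) (u : Fin m → X) :
    sg (fun v => f (fun i => v (t i))) u = ((sign t : ℤ) : ℝ) * sg f u := by
  unfold sg
  rw [Finset.mul_sum]
  refine Fintype.sum_bijective (fun s => s * t) (Group.mulRight_bijective t) _ _ fun s => ?_
  rw [sign_cast_mul, ← mul_assoc, mul_comm ((sign t : ℤ) : ℝ), mul_assoc ((sign s : ℤ) : ℝ),
    sign_cast_sq, mul_one]
  rfl

/-- The cycle which maps `0` to `i`. -/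
def cyc {m : ℕ} (i : Fin (m + 1)) : Perm (Fin (m + 1)) := (Fin.cycleRange i).symm

theorem cyc_succ {m : ℕ} (i : Fin (m + 1)) (j : Fin m) : cyc i j.succ = i.succAbove j :=
  Fin.cycleRange_symm_succ i j

theorem cyc_zero {m : ℕ} (i : Fin (m + 1)) : cyc i 0 = i := Fin.cycleRange_symm_zero i

theorem sign_cyc {m : ℕ} (i : Fin (m + 1)) : ((sign (cyc i) : ℤ) : ℝ) = (-1) ^ (i : ℕ) := by
  unfold cyc
  rw [Equiv.Perm.sign_symm, Fin.sign_cycleRange]
  push_cast
  rfl

/-- The pull-back along the face `0`. -/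
def d0 {X : Type} {m : ℕ} (f : (Fin m → X) → ℝ) (u : Fin (m + 1) → X) : ℝ :=
  f (fun j => u j.succ)

theorem sg_face {X : Type} {m : ℕ} (f : (Fin m → X) → ℝ) (i : Fin (m + 1))
    (u : Fin (m + 1) → X) :
    sg (fun v : Fin (m + 1) → X => f (fun j => v (i.succAbove j))) u = (-1) ^ (i : ℕ) *
      sg (d0 f) u := by
  rw [← sign_cyc, ← sg_right]
  congr 1
  funext v
  unfold d0
  congr 1
  funext j
  change v (i.succAbove j) = v (cyc i j.succ)
  rw [cyc_succ]

/-- The permutations as products. -/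
def pr {m : ℕ} (q : Fin (m + 1) × Perm (Fin m)) : Perm (Fin (m + 1)) :=
  cyc q.1 * decomposeFin.symm (0, q.2)

theorem pr_zero {m : ℕ} (q : Fin (m + 1) × Perm (Fin m)) : pr q 0 = q.1 := by
  unfold pr
  rw [Perm.mul_apply, decomposeFin_symm_apply_zero, cyc_zero]

theorem pr_succ {m : ℕ} (q : Fin (m + 1) × Perm (Fin m)) (j : Fin m) :
    pr q j.succ = q.1.succAbove (q.2 j) := by
  unfold pr
  rw [Perm.mul_apply, decomposeFin_symm_apply_succ, swap_self, Equiv.refl_apply, cyc_succ]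

theorem sign_pr {m : ℕ} (q : Fin (m + 1) × Perm (Fin m)) :
    ((sign (pr q) : ℤ) : ℝ) = (-1) ^ (q.1 : ℕ) * ((sign q.2 : ℤ) : ℝ) := by
  unfold pr
  rw [sign_cast_mul, sign_cyc, decomposeFin.symm_sign]
  simp

theorem pr_bijective {m : ℕ} : Function.Bijective (pr (m := m)) := by
  rw [Fintype.bijective_iff_injective_and_card]
  constructor
  · rintro ⟨i, s⟩ ⟨i', s'⟩ h
    have h0 : i = i' := by
      have := congrArg (fun t : Perm (Fin (m + 1)) => t 0) h
      simpa only [pr_zero] using this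
    subst h0
    have h1 : s = s' := by
      ext j
      have := congrArg (fun t : Perm (Fin (m + 1)) => t j.succ) h
      simp only [pr_succ] at this
      rw [Fin.succAbove_right_injective this]
    rw [h1]
  · rw [Fintype.card_prod, Fintype.card_perm, Fintype.card_perm, Fintype.card_fin,
      Fintype.card_fin, Nat.factorial_succ]

theorem sg_d0 {X : Type} {m : ℕ} (f : (Fin m → X) → ℝ) (u : Fin (m + 1) → X) :
    sg (d0 f) u = ∑ i : Fin (m + 1), (-1) ^ (i : ℕ) * sg f (fun j => u (i.succAbove j)) := by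
  have h1 : ∑ q : Fin (m + 1) × Perm (Fin m), ((-1 : ℝ) ^ (q.1 : ℕ) * ((sign q.2 : ℤ) : ℝ)) *
      f (fun j => u (q.1.succAbove (q.2 j))) = sg (d0 f) u := by
    refine Fintype.sum_bijective pr pr_bijective _ _ fun q => ?_
    rw [sign_pr]
    unfold d0
    simp only [pr_succ]
  rw [← h1, Fintype.sum_prod_type]
  refine Finset.sum_congr rfl fun i _ => ?_
  unfold sg
  rw [Finset.mul_sum]
  refine Finset.sum_congr rfl fun s _ => ?_
  rw [mul_assoc]

theorem abs_sg_le {X : Type} {m : ℕ} {f : (Fin m → X) → ℝ} {C : ℝ} (h : ∀ u, |f u| ≤ C)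
    (u : Fin m → X) : |sg f u| ≤ (m ! : ℝ) * C := by
  unfold sg
  refine (Finset.abs_sum_le_sum_abs _ _).trans ?_
  calc ∑ s : Perm (Fin m), |((sign s : ℤ) : ℝ) * f (fun i => u (s i))|
      ≤ ∑ _s : Perm (Fin m), C := by
        refine Finset.sum_le_sum fun s _ => ?_
        rw [abs_mul, sign_cast_abs, one_mul]
        exact h _
    _ = (m ! : ℝ) * C := by
        rw [Finset.sum_const, Finset.card_univ, Fintype.card_perm, Fintype.card_fin, nsmul_eq_mul]

theorem abs_alt_le {X : Type} {m : ℕ} {f : (Fin m → X) → ℝ} {C : ℝ} (h : ∀ u, |f u| ≤ C)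
    (u : Fin m → X) : |(m ! : ℝ)⁻¹ * sg f u| ≤ C := by
  have h0 : (0 : ℝ) < (m ! : ℝ) := by exact_mod_cast Nat.factorial_pos m
  rw [abs_mul, abs_inv, abs_of_pos h0]
  calc (m ! : ℝ)⁻¹ * |sg f u| ≤ (m ! : ℝ)⁻¹ * ((m ! : ℝ) * C) :=
        mul_le_mul_of_nonneg_left (abs_sg_le h u) (by positivity)
    _ = C := by rw [← mul_assoc, inv_mul_cancel₀ h0.ne', one_mul]

/-- Alternation. -/
def altL (X : Type) (m : ℕ) : Bdd (Fin m → X) →ₗ[ℝ] Bdd (Fin m → X) where
  toFun f := ⟨fun u => (m ! : ℝ)⁻¹ * sg f.1 u, f.2.imp fun _ h => abs_alt_le h⟩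
  map_add' f g := by
    apply Subtype.ext
    funext u
    change (m ! : ℝ)⁻¹ * sg (f.1 + g.1) u = (m ! : ℝ)⁻¹ * sg f.1 u + (m ! : ℝ)⁻¹ * sg g.1 u
    rw [← mul_add]
    congr 1
    unfold sg
    rw [← Finset.sum_add_distrib]
    refine Finset.sum_congr rfl fun s _ => ?_
    rw [Pi.add_apply, mul_add]
  map_smul' c f := by
    apply Subtype.ext
    funext u
    change (m ! : ℝ)⁻¹ * sg (c • f.1) u = c * ((m ! : ℝ)⁻¹ * sg f.1 u)
    rw [mul_left_comm]
    congr 1
    unfold sg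
    rw [Finset.mul_sum]
    refine Finset.sum_congr rfl fun s _ => ?_
    rw [Pi.smul_apply, smul_eq_mul, mul_left_comm]

theorem altL_apply {X : Type} {m : ℕ} (f : Bdd (Fin m → X)) (u : Fin m → X) :
    (altL X m f).1 u = (m ! : ℝ)⁻¹ * sg f.1 u := rfl

theorem sg_sum {X ι : Type} {m : ℕ} (t : Finset ι) (c : ι → ℝ) (f : ι → (Fin m → X) → ℝ)
    (u : Fin m → X) : sg (fun v => ∑ i ∈ t, c i * f i v) u = ∑ i ∈ t, c i * sg (f i) u := by
  unfold sg
  simp only [Finset.mul_sum]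
  rw [Finset.sum_comm]
  refine Finset.sum_congr rfl fun i _ => Finset.sum_congr rfl fun s _ => ?_
  ring

/-- [ALT] -/
theorem alt : AltStatement := by
  intro X
  refine ⟨fun m => altL X (m + 1), ?_, ?_, ?_, ?_, ?_⟩
  · intro m f C h
    exact abs_alt_le h
  · intro f
    apply Subtype.ext
    funext u
    rw [altL_apply]
    unfold sg
    have hs : Subsingleton (Perm (Fin (0 + 1))) :=
      (inferInstance : Subsingleton (Perm (Fin 1)))
    rw [Fintype.sum_eq_single (1 : Perm (Fin (0 + 1)))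
      (fun s hne => absurd (Subsingleton.elim s 1) hne), Perm.sign_one]
    simp
  · intro m f s u
    rw [altL_apply, altL_apply, sg_perm, mul_left_comm]
  · intro m t f
    apply Subtype.ext
    funext u
    rfl
  · intro m f
    apply Subtype.ext
    funext u
    refine Eq.trans ?_ (delta_apply (tupF X) (altL X (m + 1) f) u).symm
    change ((m + 1 + 1) ! : ℝ)⁻¹ * sg ((tupF X).δ f).1 u =
      ∑ i : Fin (m + 2), (-1 : ℝ) ^ (i : ℕ) *
        (((m + 1) ! : ℝ)⁻¹ * sg f.1 (fun j => u (i.succAbove j)))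
    have h1 : ((tupF X).δ f).1 = fun v : Fin (m + 2) → X =>
        ∑ i : Fin (m + 2), (-1 : ℝ) ^ (i : ℕ) * f.1 (fun j => v (i.succAbove j)) := by
      funext v
      exact delta_apply (tupF X) f v
    rw [h1, sg_sum]
    simp only [sg_face]
    have h2 : ∀ i : Fin (m + 2), (-1 : ℝ) ^ (i : ℕ) * ((-1) ^ (i : ℕ) * sg (d0 f.1) u) =
        sg (d0 f.1) u := by
      intro i
      rw [← mul_assoc, ← mul_pow]
      norm_num
    simp only [h2]
    rw [Finset.sum_const, Finset.card_univ, Fintype.card_fin, nsmul_eq_mul, sg_d0,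
      ← mul_assoc]
    have h3 : ((m + 1 + 1) ! : ℝ)⁻¹ * ((m + 2 : ℕ) : ℝ) = ((m + 1) ! : ℝ)⁻¹ := by
      rw [Nat.factorial_succ (m + 1)]
      have h4 : ((m + 1) ! : ℝ) ≠ 0 := by exact_mod_cast Nat.factorial_ne_zero (m + 1)
      have h5 : ((m : ℝ) + 2) ≠ 0 := by positivity
      push_cast
      rw [show (m : ℝ) + 1 + 1 = (m : ℝ) + 2 by ring]
      field_simp
    rw [h3, Finset.mul_sum]
    refine Finset.sum_congr rfl fun i _ => ?_
    ring

end

end Pool.Agent.Lib.MP_72b724_gt.H68
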