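import Pool.Agent.Lib.MP_72b724_gt.H68.LocC

/-!
# MP_72b724_gt: the value of a local class on a fundamental cycle
-/

open scoped BigOperators
open Set Topology Metric Pool.Agent.Lib.MP_904b2a_gt Pool.Agent.Lib.MP_89fcdb_gt

namespace Pool.Agent.Lib.MP_72b724_gt.H68

noncomputable section

variable {X : Type} [TopologicalSpace X]

theorem bdry_mem_chainsIn {n : ℕ} {S : Set X} {c : Chain (n + 1) X} (hc : c ∈ chainsIn (n + 1) S) :
    bdry n c ∈ chainsIn n S := by
  refine H41.mem_of_supported (bdry n : Chain (n + 1) X →+ Chain n X).toIntLinearMap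
    (S := {σ : Sing (n + 1) X | Set.range σ ⊆ S})
    (P := Finsupp.supported ℤ ℤ {σ : Sing n X | Set.range σ ⊆ S}) (fun σ hσ => ?_) hc
  change bdry n (Finsupp.single σ 1) ∈ _
  rw [H35.bdry_single]
  refine Submodule.sum_mem _ fun i _ => ?_
  refine Finsupp.single_mem_supported ℤ _ ?_
  rintro _ ⟨p, rfl⟩
  exact hσ ⟨_, rfl⟩

theorem mem_chainsIn_of_smul {n : ℕ} {S : Set X} {c : Chain n X} {d : ℤ} (hd : d ≠ 0)
    (h : d • c ∈ chainsIn n S) : c ∈ chainsIn n S := by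
  change d • c ∈ Finsupp.supported ℤ ℤ _ at h
  change c ∈ Finsupp.supported ℤ ℤ _
  rw [Finsupp.mem_supported] at *
  rwa [Finsupp.support_smul_eq hd] at h

theorem bdry_mem_of_relBdr {n : ℕ} {S : Set X} {c : Chain (n + 1) X} (hc : c ∈ relBdr (n + 1) S) :
    bdry n c ∈ chainsIn n S := by
  obtain ⟨_, ⟨b, rfl⟩, s, hs, rfl⟩ := AddSubgroup.mem_sup.mp hc
  rw [map_add, H35.bdry_bdry, zero_add]
  exact bdry_mem_chainsIn hs

/-- A universal local class takes the value `± 1` (or `0`) on a fundamental cycle. -/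
theorem ev_univ {n : ℕ} {z : X} (i : relCocycles ℤ ({z}ᶜ : Set X) (n + 1))
    (hι : IsUniv (HR.mk (n + 1) i)) {c : Chain (n + 1) X} (hc : IsFundamental c) :
    |H35.ev (n + 1) i.1 c| ≤ 1 := by
  let S : Set X := {z}ᶜ
  let R : AddSubgroup (Chain (n + 1) X) := relBdr (n + 1) S
  let φ : Coch (n + 1) X (Chain (n + 1) X ⧸ R) := H35.co (n + 1) (QuotientAddGroup.mk' R)
  have hφ : φ ∈ relCocycles (Chain (n + 1) X ⧸ R) S (n + 1) :=
    H35.co_mem_relCocycles (fun c hc => (QuotientAddGroup.eq_zero_iff _).mpr hc)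
  obtain ⟨a, ha⟩ := (hι (Chain (n + 1) X ⧸ R)).2 (HR.mk (n + 1) ⟨φ, hφ⟩)
  change HR.cm (zmultiplesHom _ a) (HR.mk (n + 1) i) = _ at ha
  rw [HR.cm_mk, HR.mk_eq_mk] at ha
  obtain ⟨g, hg, hg'⟩ := ha
  have key : ∀ y ∈ relCyc n S, QuotientAddGroup.mk' R y = H35.ev (n + 1) i.1 y • a := by
    intro y hy
    have h1 : H35.ev (n + 1) (cob n g) y = 0 := by
      rw [H35.ev_cob]
      exact H35.ev_zero_of_relCoch hg hy
    rw [hg'] at h1
    change H35.ev (n + 1) (cmC (n + 1) (zmultiplesHom _ a) i.1 - φ) y = 0 at h1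
    rw [H35.ev_sub, AddMonoidHom.sub_apply, sub_eq_zero,
      show H35.ev (n + 1) φ y = QuotientAddGroup.mk' R y from H35.ev_co_apply _ _ _] at h1
    rw [← h1]
    have h2 : H35.ev (n + 1) (cmC (n + 1) (zmultiplesHom _ a) i.1) =
        (zmultiplesHom _ a).comp (H35.ev (n + 1) i.1) := by
      refine Finsupp.addHom_ext (fun σ k => ?_)
      rw [AddMonoidHom.comp_apply, H35.ev_single, H35.ev_single]
      change k • (i.1 σ • a) = (k • i.1 σ) • a
      rw [smul_smul, smul_eq_mul]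
    rw [h2]
    rfl
  obtain ⟨a', rfl⟩ := QuotientAddGroup.mk'_surjective R a
  set d : ℤ := H35.ev (n + 1) i.1 c with hd
  by_cases hd0 : d = 0
  · rw [hd0, abs_zero]
    exact zero_le_one
  have hcc : c ∈ relCyc n S := by
    change bdry n c ∈ chainsIn n S
    rw [hc.1]
    exact zero_mem _
  have h1 : c - d • a' ∈ relBdr (n + 1) S := by
    change _ ∈ R
    rw [← QuotientAddGroup.eq_zero_iff]
    change QuotientAddGroup.mk' R (c - d • a') = 0
    rw [map_sub, map_zsmul, key c hcc, sub_self]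
  have h2 := bdry_mem_of_relBdr h1
  rw [map_sub, map_zsmul, hc.1, zero_sub, neg_mem_iff] at h2
  have h3 : a' ∈ relCyc n S := mem_chainsIn_of_smul hd0 h2
  obtain ⟨k, hk⟩ := hc.2 z a' h3
  have h4 := H35.ev_relBdr i.2 hk
  have h5 := H35.ev_relBdr i.2 h1
  rw [map_sub, map_zsmul, ← hd, smul_eq_mul, sub_eq_zero] at h4 h5
  have h6 : d * (k * d) = d * 1 := by
    rw [mul_one, ← h4, ← h5]
  have h7 : k * d = 1 := mul_left_cancel₀ hd0 h6
  rcases Int.eq_one_or_neg_one_of_mul_eq_one' h7 with ⟨-, h8⟩ | ⟨-, h8⟩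
  · rw [h8]; norm_num
  · rw [h8]; norm_num

end

end Pool.Agent.Lib.MP_72b724_gt.H68
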