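import Pool.Agent.Lib.MP_72b724_gt.H68.Omg
import Pool.Agent.Lib.MP_89fcdb_gt.H35.Loc

/-!
# MP_72b724_gt: the local class at a crossing point
-/

open scoped BigOperators
open Set Topology Metric Pool.Agent.Lib.MP_904b2a_gt Pool.Agent.Lib.MP_904b2a_gt.H41
  Pool.Agent.Lib.MP_89fcdb_gt

namespace Pool.Agent.Lib.MP_72b724_gt.H68

noncomputable section

/-- The parametrisation can be taken with small image. -/
theorem locLin_shrink {D : ℕ} {X : Type} [TopologicalSpace X] {F : X → Fin D → ℝ} {z : X}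
    (h : LocLin F z) {U : Set X} (hU : IsOpen U) (hz : z ∈ U) :
    ∃ (j : (Fin D → ℝ) → X) (A : (Fin D → ℝ) → (Fin D → ℝ)), IsOpenEmbedding j ∧
      IsOpenEmbedding A ∧ j 0 = z ∧ A 0 = 0 ∧ range j ⊆ U ∧
      ∀ v, v ≠ 0 → ∀ s ∈ Icc (0 : ℝ) 1, (1 - s) • F (j v) + s • A v ≠ 0 := by
  obtain ⟨j, A, hj, hA, hj0, hA0, -, hs⟩ := h
  have h1 : j ⁻¹' U ∈ 𝓝 (0 : Fin D → ℝ) := by
    refine (hU.preimage hj.continuous).mem_nhds ?_
    rw [mem_preimage, hj0]
    exact hz
  obtain ⟨ρ, hρ, hρU⟩ := Metric.mem_nhds_iff.mp h1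
  let e := OpenPartialHomeomorph.univBall (0 : Fin D → ℝ) ρ
  have he : IsOpenEmbedding e := e.isOpenEmbedding
    (OpenPartialHomeomorph.univBall_source (0 : Fin D → ℝ) ρ)
  have he0 : e 0 = 0 := OpenPartialHomeomorph.univBall_apply_zero (0 : Fin D → ℝ) ρ
  have hmem : ∀ v, e v ∈ ball (0 : Fin D → ℝ) ρ := by
    intro v
    have h2 := e.map_source (x := v) (by
      rw [OpenPartialHomeomorph.univBall_source]
      trivial)
    rwa [OpenPartialHomeomorph.univBall_target (0 : Fin D → ℝ) hρ] at h2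
  refine ⟨j ∘ e, A ∘ e, hj.comp he, hA.comp he, ?_, ?_, ?_, ?_⟩
  · rw [Function.comp_apply, he0, hj0]
  · rw [Function.comp_apply, he0, hA0]
  · rintro _ ⟨v, rfl⟩
    exact hρU (hmem v)
  · intro v hv s hs'
    refine hs (e v) (fun h0 => hv ?_) s hs'
    exact he.injective (h0.trans he0.symm)

variable {X Y : Type} [TopologicalSpace X] [TopologicalSpace Y]

/-- Universal classes and bijections. -/
theorem isUniv_of_pb {n : ℕ} (f : C(X, Y)) {S : Set X} {T : Set Y} (h : MapsTo f S T)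
    (hb : ∀ (A : Type) [AddCommGroup A], Function.Bijective (HR.pb (n := n) (A := A) f h))
    {ι : HR n T ℤ} : IsUniv (HR.pb f h ι) ↔ IsUniv ι := by
  refine forall_congr' fun A => forall_congr' fun _ => ?_
  have e : (fun a : A => HR.cm (zmultiplesHom A a) (HR.pb f h ι)) =
      (HR.pb (n := n) (A := A) f h) ∘ fun a : A => HR.cm (zmultiplesHom A a) ι := by
    funext a
    rw [Function.comp_apply, HR.pb_cm]
  rw [e]
  exact Function.Bijective.of_comp_iff' (hb A) _

variable {n : ℕ} {M : Type} [MetricSpace M] {z : M} {r θ ε : ℝ} {F : M → Fin (n + 1) → ℝ}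

theorem Loc1.cont (L : Loc1 (n + 1) M z r θ ε F) : Continuous F :=
  continuous_pi fun k => (L.lip k).continuous

/-- The restriction of the map `F` to the ball. -/
def Loc1.fB (L : Loc1 (n + 1) M z r θ ε F) : C(ball z (2 * r), Fin (n + 1) → ℝ) :=
  ⟨fun x => F x.1, L.cont.comp continuous_subtype_val⟩

theorem Loc1.mapsS (L : Loc1 (n + 1) M z r θ ε F) :
    MapsTo L.fB {y : ball z (2 * r) | y.1 ∉ closedBall z r} (boxc (n + 1) θ) := by
  intro y hy
  by_contra h
  have h1 : ∀ k, |F y.1 k| ≤ θ := by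
    intro k
    by_contra hk
    exact h ⟨k, not_le.mp hk⟩
  exact hy (L.small y.1 y.2 h1).le

theorem Loc1.mapsZ (L : Loc1 (n + 1) M z r θ ε F) :
    MapsTo L.fB {y : ball z (2 * r) | y.1 ∉ ({z} : Set M)} ({0}ᶜ : Set (Fin (n + 1) → ℝ)) := by
  intro y hy h
  exact hy (L.zero y.1 y.2 h)

/-- The inclusion of a subset and complements. -/
theorem mapsIncl (B K : Set M) : MapsTo (incl B) {y : B | y.1 ∉ K} Kᶜ := fun _ hy => hy

/-- The universal class at the point. -/
theorem Loc1.exists_univ (L : Loc1 (n + 1) M z r θ ε F)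
    {ι : HR (n + 1) ({0}ᶜ : Set (Fin (n + 1) → ℝ)) ℤ} (hι : IsUniv ι)
    {ι' : HR (n + 1) ({z}ᶜ : Set M) ℤ}
    (h : HR.pb (incl (ball z (2 * r))) (mapsIncl (ball z (2 * r)) {z}) ι' =
      HR.pb L.fB L.mapsZ ι) : IsUniv ι' := by
  obtain ⟨j, A, hj, hA, hj0, hA0, hjU, hs⟩ := locLin_shrink L.loclin (U := ball z (2 * r))
    isOpen_ball (mem_ball_self (by have := L.r_pos; positivity))
  let J : C(Fin (n + 1) → ℝ, M) := ⟨j, hj.continuous⟩
  let J' : C(Fin (n + 1) → ℝ, ball z (2 * r)) :=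
    ⟨fun v => ⟨j v, hjU (mem_range_self v)⟩, hj.continuous.subtype_mk _⟩
  let AA : C(Fin (n + 1) → ℝ, Fin (n + 1) → ℝ) := ⟨A, hA.continuous⟩
  have hJ : MapsTo J ({0}ᶜ : Set (Fin (n + 1) → ℝ)) ({z}ᶜ : Set M) := by
    intro v hv h0
    exact hv (hj.injective (h0.trans hj0.symm))
  have hJ' : MapsTo J' ({0}ᶜ : Set (Fin (n + 1) → ℝ))
      {y : ball z (2 * r) | y.1 ∉ ({z} : Set M)} := hJ
  have hAA : MapsTo AA ({0}ᶜ : Set (Fin (n + 1) → ℝ)) ({0}ᶜ : Set (Fin (n + 1) → ℝ)) := by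
    intro v hv h0
    exact hv (hA.injective (h0.trans hA0.symm))
  have hbJ : ∀ (B : Type) [AddCommGroup B], Function.Bijective
      (HR.pb (n := n + 1) (A := B) J hJ) := by
    intro B _
    exact H35.exc_embedding (A := B) (j := J) hj (isClosed_singleton (x := z))
      (by rintro _ rfl; exact ⟨0, hj0⟩) (L := ({0}ᶜ : Set (Fin (n + 1) → ℝ)))
      (fun y => by
        rw [mem_singleton_iff, ← hj0]
        exact (hj.injective.eq_iff.not).symm) _
  have hbA : ∀ (B : Type) [AddCommGroup B], Function.Bijective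
      (HR.pb (n := n + 1) (A := B) AA hAA) := by
    intro B _
    exact H35.exc_embedding (A := B) (j := AA) hA
      (isClosed_singleton (x := (0 : Fin (n + 1) → ℝ)))
      (by rintro _ rfl; exact ⟨0, hA0⟩) (L := ({0}ᶜ : Set (Fin (n + 1) → ℝ)))
      (fun y => by
        have h1 : AA y = 0 ↔ y = 0 := by
          constructor
          · intro h2
            exact hA.injective (h2.trans hA0.symm)
          · rintro rfl
            exact hA0
        rw [mem_singleton_iff, h1]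
        rfl) _
  -- the homotopy
  let H : (L.fB.comp J').Homotopy AA :=
    { toFun := fun p => (1 - (p.1 : ℝ)) • F (j p.2) + (p.1 : ℝ) • A p.2
      continuous_toFun := by
        have h1 := L.cont.comp hj.continuous
        have h2 := hA.continuous
        have h3 : Continuous fun p : unitInterval × (Fin (n + 1) → ℝ) => (p.1 : ℝ) :=
          continuous_subtype_val.comp continuous_fst
        exact ((continuous_const.sub h3).smul (h1.comp continuous_snd)).add
          (h3.smul (h2.comp continuous_snd))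
      map_zero_left := by
        intro v
        change (1 - ((0 : unitInterval) : ℝ)) • F (j v) + ((0 : unitInterval) : ℝ) • A v = F (j v)
        simp
      map_one_left := by
        intro v
        change (1 - ((1 : unitInterval) : ℝ)) • F (j v) + ((1 : unitInterval) : ℝ) • A v = A v
        simp }
  have hH := HR.pb_eq_of_homotopy H (S := ({0}ᶜ : Set (Fin (n + 1) → ℝ)))
    (T := ({0}ᶜ : Set (Fin (n + 1) → ℝ))) (fun t s hs' => hs s hs' t t.2)
    (L.mapsZ.comp hJ') hAA ι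
  have hk : HR.pb J hJ ι' = HR.pb AA hAA ι := by
    rw [← hH, ← HR.pb_comp J' L.fB hJ' L.mapsZ, ← h, HR.pb_comp]
    rfl
  rw [← isUniv_of_pb J hJ hbJ, hk, isUniv_of_pb AA hAA hbA]
  exact hι

/-- The class of the local cocycle is a multiple of a universal class. -/
theorem Loc1.class_eq (L : Loc1 (n + 1) M z r θ ε F) (s : Fin (n + 1) → Bool)
    (h0 : MapsTo (ContinuousMap.id (Fin (n + 1) → ℝ)) (boxc (n + 1) θ)
      ({0}ᶜ : Set (Fin (n + 1) → ℝ)))
    (w : relCocycles ℤ (boxc (n + 1) θ) (n + 1))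
    (hw : ∀ τ : Sing (n + 1) (Fin (n + 1) → ℝ), (∀ p q k, |τ p k - τ q k| < θ) →
      w.1 τ = rb s (fun i => typ θ (τ (stdSimplex.vertex i))))
    {ι : HR (n + 1) ({0}ᶜ : Set (Fin (n + 1) → ℝ)) ℤ} {m : ℤ} (hι : IsUniv ι)
    (hm : HR.mk (n + 1) w = m • HR.pb (ContinuousMap.id (Fin (n + 1) → ℝ)) h0 ι)
    (hzS : MapsTo (ContinuousMap.id M) ((closedBall z r)ᶜ : Set M) ({z}ᶜ : Set M))
    (ψ : relCocycles ℤ ((closedBall z r)ᶜ : Set M) (n + 1))
    (hψ : ∀ τ ∈ H41.small (bc M ε) (n + 1), ψ.1 τ = omg z r θ F s τ) :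
    ∃ ι' : HR (n + 1) ({z}ᶜ : Set M) ℤ, IsUniv ι' ∧
      HR.mk (n + 1) ψ = m • HR.pb (ContinuousMap.id M) hzS ι' := by
  have hr := L.r_pos
  have hBo : IsOpenEmbedding (incl (ball z (2 * r))) :=
    (isOpen_ball (x := z) (ε := 2 * r)).isOpenEmbedding_subtypeVal
  have hb1 := H35.exc_embedding (A := ℤ) (j := incl (ball z (2 * r))) hBo
    (isClosed_closedBall (x := z) (ε := r))
    (by
      intro x hx
      exact ⟨⟨x, (mem_closedBall.mp hx).trans_lt (by linarith)⟩, rfl⟩)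
    (L := {y : ball z (2 * r) | y.1 ∉ closedBall z r}) (fun y => Iff.rfl) (n + 1)
  have hb2 := H35.exc_embedding (A := ℤ) (j := incl (ball z (2 * r))) hBo
    (isClosed_singleton (x := z))
    (by
      rintro _ rfl
      exact ⟨⟨_, mem_ball_self (by positivity)⟩, rfl⟩)
    (L := {y : ball z (2 * r) | y.1 ∉ ({z} : Set M)}) (fun y => Iff.rfl) (n + 1)
  obtain ⟨ι', hι'⟩ := hb2.2 (HR.pb L.fB L.mapsZ ι)
  refine ⟨ι', L.exists_univ hι hι', hb1.1 ?_⟩
  -- the two cocycles agree on small simplices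
  have hcl : HR.pb (incl (ball z (2 * r))) (mapsIncl (ball z (2 * r)) (closedBall z r))
      (HR.mk (n + 1) ψ) = HR.pb L.fB L.mapsS (HR.mk (n + 1) w) := by
    rw [HR.pb_mk, HR.pb_mk, HR.mk_eq_mk]
    refine exists_relPrimitive (fun x => incl (ball z (2 * r)) ⁻¹' bc M ε x)
      (fun x => (bc_open ε x).preimage (incl (ball z (2 * r))).continuous) ?_ _ _ ?_ ?_
    · rw [← preimage_iUnion, bc_cover L.ε_pos, preimage_univ]
    · exact AddSubgroup.sub_mem _ (pbC_mem_relCocycles (incl (ball z (2 * r)))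
        (mapsIncl (ball z (2 * r)) (closedBall z r)) ψ.2) (pbC_mem_relCocycles L.fB L.mapsS w.2)
    · intro τ hτ
      have h1 : (incl (ball z (2 * r))).comp τ ∈ H41.small (bc M ε) (n + 1) := by
        obtain ⟨x, hx⟩ := hτ
        refine ⟨x, ?_⟩
        rintro _ ⟨p, rfl⟩
        exact hx ⟨p, rfl⟩
      change ψ.1 ((incl (ball z (2 * r))).comp τ) - w.1 (L.fB.comp τ) = 0
      rw [hψ _ h1, omg_in s (fun p => (τ p).2), hw]
      · exact sub_self _
      · intro p q k
        exact L.abs_sub_lt (small_dist h1 p q) k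
  have hsub : MapsTo (ContinuousMap.id (ball z (2 * r)))
      {y : ball z (2 * r) | y.1 ∉ closedBall z r} {y : ball z (2 * r) | y.1 ∉ ({z} : Set M)} :=
    fun y hy => hzS hy
  have h2 : HR.pb (incl (ball z (2 * r))) (mapsIncl (ball z (2 * r)) (closedBall z r))
      (HR.pb (ContinuousMap.id M) hzS ι') =
      HR.pb (ContinuousMap.id (ball z (2 * r))) hsub
        (HR.pb (incl (ball z (2 * r))) (mapsIncl (ball z (2 * r)) {z}) ι') := by
    rw [HR.pb_comp, HR.pb_comp]
    rfl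
  have h3 : HR.pb L.fB L.mapsS (HR.pb (ContinuousMap.id (Fin (n + 1) → ℝ)) h0 ι) =
      HR.pb (ContinuousMap.id (ball z (2 * r))) hsub (HR.pb L.fB L.mapsZ ι) := by
    rw [HR.pb_comp, HR.pb_comp]
    rfl
  have hι'' : HR.pb (incl (ball z (2 * r))) (mapsIncl (ball z (2 * r)) {z}) ι' =
      HR.pb L.fB L.mapsZ ι := hι'
  have h4 : HR.pb (incl (ball z (2 * r))) (mapsIncl (ball z (2 * r)) (closedBall z r))
      (HR.mk (n + 1) ψ) = HR.pb (incl (ball z (2 * r)))
      (mapsIncl (ball z (2 * r)) (closedBall z r))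
      (m • HR.pb (ContinuousMap.id M) hzS ι') := by
    rw [hcl, hm, map_zsmul, map_zsmul, h2, h3, hι'']
  exact h4

end

end Pool.Agent.Lib.MP_72b724_gt.H68
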