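import Pool.Agent.Lib.MP_72b724_gt.H68.RelSmall

/-!
# MP_72b724_gt: the local rainbow cochain
-/

open scoped BigOperators
open Set Topology Metric Pool.Agent.Lib.MP_904b2a_gt Pool.Agent.Lib.MP_904b2a_gt.H41
  Pool.Agent.Lib.MP_89fcdb_gt

namespace Pool.Agent.Lib.MP_72b724_gt.H68

noncomputable section

theorem typ_none {D : ℕ} {θ : ℝ} {y : Fin D → ℝ} (h : typ θ y = none) (k : Fin D) :
    |y k| ≤ θ := by
  unfold typ at h
  split_ifs at h with h1
  by_contra h2
  exact h1 ⟨k, Finset.mem_filter.mpr ⟨Finset.mem_univ _, not_le.mp h2⟩⟩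

theorem typ_some {D : ℕ} {θ : ℝ} {y : Fin D → ℝ} {k : Fin D} {b : Bool}
    (h : typ θ y = some (k, b)) : θ < |y k| ∧ b = decide (0 < y k) := by
  unfold typ at h
  split_ifs at h with h1
  have h2 := Option.some.inj h
  have h3 := congrArg Prod.fst h2
  have h4 := congrArg Prod.snd h2
  simp only at h3 h4
  have h5 := Finset.min'_mem _ h1
  rw [h3] at h5 h4
  exact ⟨(Finset.mem_filter.mp h5).2, h4.symm⟩

theorem rb_zero {D : ℕ} (s : Fin D → Bool) (t : Fin (D + 1) → Option (Fin D × Bool))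
    (h : ∀ i, t i ≠ none) : rb s t = 0 := by
  unfold rb
  rw [dif_neg]
  rintro ⟨σ, hσ⟩
  refine h (σ.symm 0) ?_
  rw [hσ, Equiv.apply_symm_apply]
  rfl

theorem consist_of_close {D m : ℕ} {θ : ℝ} (hθ : 0 < θ) (y : Fin m → Fin D → ℝ)
    (h : ∀ i j k, |y i k - y j k| < θ) : Consist (fun i => typ θ (y i)) := by
  intro i j k b b' hi hj
  obtain ⟨h1, h2⟩ := typ_some hi
  obtain ⟨h3, h4⟩ := typ_some hj
  rw [h2, h4]
  have h5 := abs_lt.mp (h i j k)
  refine decide_eq_decide.mpr ⟨fun h6 => ?_, fun h6 => ?_⟩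
  · rw [abs_of_pos h6] at h1
    linarith
  · rw [abs_of_pos h6] at h3
    linarith

/-- The types of the vertices of a simplex. -/
def tv {D n : ℕ} {X : Type} [TopologicalSpace X] (θ : ℝ) (F : X → Fin D → ℝ)
    (τ : C(Simp n, X)) (i : Fin (n + 1)) : Option (Fin D × Bool) :=
  typ θ (F (τ (stdSimplex.vertex i)))

theorem tv_face {D n : ℕ} {X : Type} [TopologicalSpace X] (θ : ℝ) (F : X → Fin D → ℝ)
    (τ : C(Simp (n + 1), X)) (i : Fin (n + 2)) :
    tv θ F (τ.comp (smap (fv n i))) = fun a => tv θ F τ (i.succAbove a) := by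
  funext a
  unfold tv
  congr 2
  rw [ContinuousMap.comp_apply]
  congr 1
  rw [← H35.fv_eq_succAbove]
  exact stdSimplex.map_vertex _ _

/-- The cover by small balls. -/
def bc (M : Type) [MetricSpace M] (ε : ℝ) (x : M) : Set M := ball x (ε / 3)

theorem bc_open {M : Type} [MetricSpace M] (ε : ℝ) (x : M) : IsOpen (bc M ε x) := isOpen_ball

theorem bc_cover {M : Type} [MetricSpace M] {ε : ℝ} (hε : 0 < ε) : ⋃ x, bc M ε x = univ := by
  rw [eq_univ_iff_forall]
  exact fun x => mem_iUnion.mpr ⟨x, mem_ball_self (by positivity)⟩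

theorem small_dist {M : Type} [MetricSpace M] {ε : ℝ} {n : ℕ} {τ : C(Simp n, M)}
    (h : τ ∈ small (bc M ε) n) (p q : Simp n) : dist (τ p) (τ q) < ε := by
  obtain ⟨x, hx⟩ := h
  have h1 : dist (τ p) x < ε / 3 := hx (mem_range_self p)
  have h2 : dist (τ q) x < ε / 3 := hx (mem_range_self q)
  have h3 := dist_triangle_right (τ p) (τ q) x
  have h4 := @dist_nonneg _ _ (τ p) x
  linarith

theorem small_comp {X : Type} [TopologicalSpace X] {ι : Type} {U : ι → Set X} {n m : ℕ}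
    {τ : C(Simp n, X)} (h : τ ∈ small U n) (g : C(Simp m, Simp n)) : τ.comp g ∈ small U m := by
  obtain ⟨x, hx⟩ := h
  refine ⟨x, ?_⟩
  rintro _ ⟨p, rfl⟩
  exact hx ⟨g p, rfl⟩

/-- The local data at one crossing point. -/
structure Loc1 (D : ℕ) (M : Type) [MetricSpace M] (z : M) (r θ ε : ℝ) (F : M → Fin D → ℝ) :
    Prop where
  r_pos : 0 < r
  θ_pos : 0 < θ
  ε_pos : 0 < ε
  ε_le : ε ≤ r
  ε_le' : ε ≤ θ
  lip : ∀ k, LipschitzWith 1 (fun x => F x k)
  small : ∀ x, dist x z < 2 * r → (∀ k, |F x k| ≤ θ) → dist x z < r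
  zero : ∀ x, dist x z < 2 * r → F x = 0 → x = z
  loclin : LocLin F z

theorem LocData.loc1 {D : ℕ} {M : Type} [MetricSpace M] {Z : Finset M} (L : LocData D M Z) {z : M}
    (hz : z ∈ Z) : Loc1 D M z L.r L.θ L.ε (L.F z) :=
  ⟨L.r_pos, L.θ_pos, L.ε_pos, L.ε_le, L.ε_le', L.lip z hz, L.small z hz, L.zero z hz,
    L.loclin z hz⟩

/-- The local rainbow cochain. -/
def omg {D : ℕ} {M : Type} [MetricSpace M] (z : M) (r θ : ℝ) (F : M → Fin D → ℝ)
    (s : Fin D → Bool) : Coch D M ℤ := fun τ =>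
  open Classical in if ∀ p, dist (τ p) z < 2 * r then rb s (tv θ F τ) else 0

section

variable {D : ℕ} {M : Type} [MetricSpace M] {z : M} {r θ ε : ℝ} {F : M → Fin D → ℝ}

theorem omg_in (s : Fin D → Bool) {τ : C(Simp D, M)} (h : ∀ p, dist (τ p) z < 2 * r) :
    omg z r θ F s τ = rb s (tv θ F τ) := by
  unfold omg
  rw [if_pos h]

theorem omg_out (s : Fin D → Bool) {τ : C(Simp D, M)} (h : ¬ ∀ p, dist (τ p) z < 2 * r) :
    omg z r θ F s τ = 0 := by
  unfold omg
  rw [if_neg h]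

/-- The cochain vanishes on the simplices which avoid the small ball. -/
theorem Loc1.omg_far (L : Loc1 D M z r θ ε F) (s : Fin D → Bool) {τ : C(Simp D, M)}
    (h : ∀ p, r ≤ dist (τ p) z) : omg z r θ F s τ = 0 := by
  by_cases h1 : ∀ p, dist (τ p) z < 2 * r
  · rw [omg_in s h1]
    refine rb_zero s _ fun i hi => ?_
    have h2 := L.small _ (h1 _) (typ_none hi)
    exact absurd (h _) (not_le.mpr h2)
  · exact omg_out s h1

theorem Loc1.abs_sub_lt (L : Loc1 D M z r θ ε F) {x y : M} (h : dist x y < ε) (k : Fin D) :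
    |F x k - F y k| < θ := by
  have h1 := (L.lip k).dist_le_mul x y
  rw [Real.dist_eq, NNReal.coe_one, one_mul] at h1
  exact h1.trans_lt (h.trans_le L.ε_le')

/-- A small simplex which is not inside the big ball avoids the small ball. -/
theorem Loc1.far_of_not (L : Loc1 D M z r θ ε F) {n : ℕ} {τ : C(Simp n, M)}
    (hτ : ∀ p q, dist (τ p) (τ q) < ε) (h : ¬ ∀ p, dist (τ p) z < 2 * r) (p : Simp n) :
    r ≤ dist (τ p) z := by
  obtain ⟨q, hq⟩ := not_forall.mp h
  have h1 := not_lt.mp hq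
  have h2 := dist_triangle (τ q) (τ p) z
  have h3 := hτ q p
  have h4 := L.ε_le
  linarith

/-- The cochain is a cocycle on small simplices. -/
theorem Loc1.cob_omg (L : Loc1 D M z r θ ε F) (hRb : RbCocStatement) (s : Fin D → Bool)
    {τ : C(Simp (D + 1), M)} (hτ : ∀ p q, dist (τ p) (τ q) < ε) :
    cob D (omg z r θ F s) τ = 0 := by
  rw [cob_apply]
  by_cases h : ∀ p, dist (τ p) z < 2 * r
  · have h1 := hRb D s (tv θ F τ) (consist_of_close L.θ_pos _ fun i j k =>
      L.abs_sub_lt (hτ _ _) k)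
    rw [Finset.sum_range]
    refine Eq.trans (Finset.sum_congr rfl fun i _ => ?_) h1
    rw [omg_in s (fun p => h _), tv_face, smul_eq_mul]
  · refine Finset.sum_eq_zero fun i _ => ?_
    rw [L.omg_far s (fun p => L.far_of_not hτ h _), smul_zero]

end

end

end Pool.Agent.Lib.MP_72b724_gt.H68
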