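import Pool.Agent.Lib.MP_72b724_gt.Interfaces

/-!
# MP_72b724_gt: relative versions of the small simplices theorem
-/

open Set Pool.Agent.Lib.MP_904b2a_gt Pool.Agent.Lib.MP_904b2a_gt.H41

namespace Pool.Agent.Lib.MP_72b724_gt.H68

variable {X : Type*} [TopologicalSpace X] {ι : Type*} {A : Type*} [AddCommGroup A]

/-- Small cocycles which vanish on the small simplices of `S` extend to relative cocycles. -/
theorem exists_relCocycle (U : ι → Set X) (hU : ∀ i, IsOpen (U i)) (hc : ⋃ i, U i = Set.univ)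
    {n : ℕ} (φ : Coch n X A) (h : ∀ σ ∈ small U (n + 1), cob n φ σ = 0) (S : Set X)
    (hS : ∀ σ ∈ small U n, InS S σ → φ σ = 0) :
    ∃ ψ ∈ relCocycles A S n, ∀ σ ∈ small U n, ψ σ = φ σ := by
  obtain ⟨ρ, D, h1, h2, h3, -, -, h6⟩ := small_simplices U hU hc
  refine ⟨fun σ => H41.ev φ (ρ n (Finsupp.single σ 1)), ⟨fun σ hσ => ?_, ?_⟩, fun σ hσ => ?_⟩
  · have hmem := (h6 n S (Finsupp.single σ 1)
      (single_mem_supported (inS_iff_range.mp hσ))).1
    have hsm := h2 n (Finsupp.single σ 1)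
    have hboth : ρ n (Finsupp.single σ 1) ∈
        Finsupp.supported ℤ ℤ {τ : C(Simp n, X) | τ ∈ small U n ∧ Set.range τ ⊆ S} := by
      rw [Finsupp.mem_supported] at *
      exact fun τ hτ => ⟨hsm hτ, hmem hτ⟩
    exact H41.ev_eq_zero (fun τ hτ => hS τ hτ.1 (inS_iff_range.mpr hτ.2)) hboth
  · change cob n _ = 0
    funext σ
    have e : H41.ev (fun σ => H41.ev φ (ρ n (Finsupp.single σ 1))) =
        (H41.ev φ).comp (ρ n).toAddMonoidHom := by
      refine Finsupp.addHom_ext' fun σ => ?_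
      ext
      simp
    rw [← H41.ev_single (cob n _) σ, ← ev_sbd, e]
    change H41.ev φ (ρ n (sbd n (Finsupp.single σ 1))) = 0
    rw [← h1, ev_sbd]
    exact H41.ev_eq_zero h (h2 _ _)
  · dsimp only
    rw [(h3 n _ (single_mem_supported hσ)).1, H41.ev_single]

/-- Relative cocycles which vanish on small simplices are relative coboundaries. -/
theorem exists_relPrimitive (U : ι → Set X) (hU : ∀ i, IsOpen (U i)) (hc : ⋃ i, U i = Set.univ)
    {n : ℕ} (φ : Coch (n + 1) X A) (S : Set X) (hφ : φ ∈ relCocycles A S (n + 1))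
    (h : ∀ σ ∈ small U (n + 1), φ σ = 0) :
    φ ∈ relCoboundaries A S (n + 1) := by
  obtain ⟨ρ, D, h1, h2, h3, -, h5, h6⟩ := small_simplices U hU hc
  refine ⟨fun σ => H41.ev φ (D n (Finsupp.single σ 1)), fun σ hσ => ?_, ?_⟩
  · have hmem := (h6 n S (Finsupp.single σ 1)
      (single_mem_supported (inS_iff_range.mp hσ))).2
    exact H41.ev_eq_zero (fun τ hτ => hφ.1 τ (inS_iff_range.mpr hτ)) hmem
  · funext σ
    have e : H41.ev (fun σ => H41.ev φ (D n (Finsupp.single σ 1))) =
        (H41.ev φ).comp (D n).toAddMonoidHom := by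
      refine Finsupp.addHom_ext' fun σ => ?_
      ext
      simp
    rw [← H41.ev_single (cob n _) σ, ← ev_sbd, e]
    change H41.ev φ (D n (sbd n (Finsupp.single σ 1))) = _
    have h7 : D n (sbd n (Finsupp.single σ 1)) =
        Finsupp.single σ 1 - ρ (n + 1) (Finsupp.single σ 1) -
          sbd (n + 1) (D (n + 1) (Finsupp.single σ 1)) := by
      rw [← h5]
      abel
    rw [h7, map_sub, map_sub, ev_sbd, show cob (n + 1) φ = 0 from hφ.2, H41.ev_zero,
      H41.ev_single, H41.ev_eq_zero h (h2 _ _)]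
    abel

end Pool.Agent.Lib.MP_72b724_gt.H68
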