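import Pool.Agent.Lib.MP_72b724_gt.H68.EvU

/-!
# MP_72b724_gt, module TOP: the evaluation on a fundamental cycle
-/

open scoped BigOperators
open Set Topology Metric Pool.Agent.Lib.MP_904b2a_gt Pool.Agent.Lib.MP_89fcdb_gt

namespace Pool.Agent.Lib.MP_72b724_gt.H68

noncomputable section

/-- Evaluation as a homomorphism of cochains. -/
def evC {n : ℕ} {X : Type} [TopologicalSpace X] {A : Type} [AddCommGroup A] (c : Chain n X) :
    Coch n X A →+ A where
  toFun φ := H35.ev n φ c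
  map_zero' := H35.ev_zero n c
  map_add' φ ψ := by rw [H35.ev_add]; rfl

theorem evC_cmC {n : ℕ} {X : Type} [TopologicalSpace X] {A B : Type} [AddCommGroup A]
    [AddCommGroup B] (g : A →+ B) (φ : Coch n X A) (c : Chain n X) :
    evC c (cmC n g φ) = g (H35.ev n φ c) := by
  have h2 : H35.ev n (cmC n g φ) = g.comp (H35.ev n φ) := by
    refine Finsupp.addHom_ext (fun σ k => ?_)
    rw [AddMonoidHom.comp_apply, H35.ev_single, H35.ev_single, map_zsmul]
    rfl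
  change H35.ev n (cmC n g φ) c = _
  rw [h2]
  rfl

variable {n : ℕ} {M : Type} [MetricSpace M]

theorem boxc_maps {D : ℕ} {θ : ℝ} (hθ : 0 < θ) :
    MapsTo (ContinuousMap.id (Fin D → ℝ)) (boxc D θ) ({0}ᶜ : Set (Fin D → ℝ)) := by
  rintro y ⟨k, hk⟩ h
  have h1 : y = 0 := h
  rw [h1, Pi.zero_apply, abs_zero] at hk
  exact absurd hk (not_lt.mpr hθ.le)

/-- The local cocycle and its value. -/
theorem Loc1.exists_psi {z : M} {r θ ε : ℝ} {F : M → Fin (n + 1) → ℝ}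
    (L : Loc1 (n + 1) M z r θ ε F) (hRb : RbCocStatement) {W : ℕ} (s : Fin (n + 1) → Bool)
    (hW : ∃ w : relCocycles ℤ (boxc (n + 1) θ) (n + 1),
      (∀ τ : Sing (n + 1) (Fin (n + 1) → ℝ), (∀ p q k, |τ p k - τ q k| < θ) →
        w.1 τ = rb s (fun i => typ θ (τ (stdSimplex.vertex i)))) ∧
      ∃ (ι : HR (n + 1) ({0}ᶜ : Set (Fin (n + 1) → ℝ)) ℤ) (m : ℤ), IsUniv ι ∧ |m| ≤ W ∧
        HR.mk (n + 1) w = m • HR.pb (ContinuousMap.id (Fin (n + 1) → ℝ)) (boxc_maps L.θ_pos) ι)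
    {c : Chain (n + 1) M} (hc : IsFundamental c) :
    ∃ ψ : Coch (n + 1) M ℤ, ψ ∈ cocycles M ℤ (n + 1) ∧
      (∀ τ ∈ H41.small (bc M ε) (n + 1), ψ τ = omg z r θ F s τ) ∧
      |H35.ev (n + 1) ψ c| ≤ W := by
  obtain ⟨w, hw, ι, m, hι, hm, hmk⟩ := hW
  obtain ⟨ψ, hψ1, hψ2⟩ := exists_relCocycle (bc M ε) (bc_open ε) (bc_cover L.ε_pos)
    (omg z r θ F s) (fun σ hσ => L.cob_omg hRb s (small_dist hσ)) ((closedBall z r)ᶜ)
    (fun σ _ h => L.omg_far s fun p => (not_le.mp fun h' => h p (mem_closedBall.mpr h')).le)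
  refine ⟨ψ, hψ1.2, hψ2, ?_⟩
  have hzS : MapsTo (ContinuousMap.id M) ((closedBall z r)ᶜ : Set M) ({z}ᶜ : Set M) := by
    rintro y hy h
    have h1 : y = z := h
    exact hy (by rw [h1]; exact mem_closedBall_self L.r_pos.le)
  obtain ⟨ι', hι', hcl⟩ := L.class_eq s (boxc_maps L.θ_pos) w hw hι hmk hzS ⟨ψ, hψ1⟩ hψ2
  obtain ⟨i, rfl⟩ := HR.mk_surjective (n + 1) ι'
  rw [HR.pb_mk, ← map_zsmul, HR.mk_eq_mk] at hcl
  obtain ⟨g, -, hg⟩ := hcl
  have h1 : evC c (cob n g) = 0 := by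
    change H35.ev (n + 1) (cob n g) c = 0
    rw [H35.ev_cob, hc.1, map_zero]
  have h2 : evC c (ψ - m • i.1) = 0 := by
    rw [← h1, hg]
    rfl
  rw [map_sub, map_zsmul, sub_eq_zero] at h2
  change H35.ev (n + 1) ψ c = m • H35.ev (n + 1) i.1 c at h2
  rw [h2, smul_eq_mul, abs_mul]
  have h3 := ev_univ i hι' hc
  calc |m| * |H35.ev (n + 1) i.1 c| ≤ W * 1 := by
        exact mul_le_mul hm h3 (abs_nonneg _) (by positivity)
    _ = W := mul_one _

/-- [TOP] -/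
theorem top (hRb : RbCocStatement) (hU : UnivStatement) : TopStatement := by
  classical
  intro n
  obtain ⟨W, hW⟩ := hU n
  refine ⟨2 ^ (n + 1) * W, by positivity, ?_⟩
  intro M _ _ Z L G ω hω B hB hG c hc
  have hex : ∀ (z : M) (s : Fin (n + 1) → Bool), ∃ ψ : Coch (n + 1) M ℤ, z ∈ Z →
      ψ ∈ cocycles M ℤ (n + 1) ∧
      (∀ τ ∈ H41.small (bc M L.ε) (n + 1), ψ τ = omg z L.r L.θ (L.F z) s τ) ∧
      |H35.ev (n + 1) ψ c| ≤ W := by
    intro z s
    by_cases hz : z ∈ Z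
    · obtain ⟨ψ, h⟩ := (LocData.loc1 L hz).exists_psi hRb s (hW L.θ L.θ_pos s _) hc
      exact ⟨ψ, fun _ => h⟩
    · exact ⟨0, fun h => absurd h hz⟩
  choose ψ hψ using hex
  let gg : M → (Fin (n + 1) → Bool) → ℤ →+ ℝ := fun z s =>
    (AddMonoidHom.mulLeft (G z s)).comp (Int.castAddHom ℝ)
  have hgg : ∀ z s k, gg z s k = G z s * (k : ℝ) := fun z s k => rfl
  let Ψ : Coch (n + 1) M ℝ := ∑ z ∈ Z, ∑ s, cmC (n + 1) (gg z s) (ψ z s)
  have hΨ : ∀ τ, Ψ τ = ∑ z ∈ Z, ∑ s, G z s * (ψ z s τ : ℝ) := by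
    intro τ
    simp only [Ψ, Finset.sum_apply]
    rfl
  have hcoc : ω - Ψ ∈ cocycles M ℝ (n + 1) := by
    refine AddSubgroup.sub_mem _ hω.coc ?_
    refine AddSubgroup.sum_mem _ fun z hz => AddSubgroup.sum_mem _ fun s _ => ?_
    exact cmC_mem_cocycles _ (hψ z s hz).1
  have hsmall : ∀ τ ∈ H41.small (bc M L.ε) (n + 1), (ω - Ψ) τ = cob n (0 : Coch n M ℝ) τ := by
    intro τ hτ
    have hd : ∀ p q, dist (τ p) (τ q) < L.ε := small_dist hτ
    have e1 : Ψ τ = ∑ z ∈ Z, ∑ s, G z s * (omg z L.r L.θ (L.F z) s τ : ℝ) := by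
      rw [hΨ]
      refine Finset.sum_congr rfl fun z hz => Finset.sum_congr rfl fun s _ => ?_
      rw [(hψ z s hz).2.1 τ hτ]
    rw [map_zero, Pi.zero_apply, Pi.sub_apply, sub_eq_zero, e1]
    by_cases h : ∃ z ∈ Z, ∃ p, dist (τ p) z < L.r
    · obtain ⟨z, hz, p, hp⟩ := h
      have hin : ∀ q, dist (τ q) z < 2 * L.r := by
        intro q
        have h1 := dist_triangle (τ q) (τ p) z
        have h2 := hd q p
        have h3 := L.ε_le
        linarith
      rw [hω.near τ hd z hz hin, Finset.sum_eq_single_of_mem z hz]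
      · refine Finset.sum_congr rfl fun s _ => ?_
        rw [omg_in s hin]
        rfl
      · intro z' hz' hne
        refine Finset.sum_eq_zero fun s _ => ?_
        rw [omg_out s, Int.cast_zero, mul_zero]
        intro h'
        have h1 := L.sep z hz z' hz' hne.symm
        have h2 := dist_triangle_left z z' (τ p)
        have h3 := h' p
        have h4 := hin p
        have h5 := L.r_pos
        linarith
    · have hfar : ∀ z ∈ Z, ∀ p, L.r ≤ dist (τ p) z := by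
        intro z hz p
        by_contra h'
        exact h ⟨z, hz, p, not_le.mp h'⟩
      rw [hω.far τ hd hfar]
      symm
      refine Finset.sum_eq_zero fun z hz => Finset.sum_eq_zero fun s _ => ?_
      rw [(LocData.loc1 L hz).omg_far s (hfar z hz), Int.cast_zero, mul_zero]
  obtain ⟨χ, hχ, -⟩ := H41.exists_primitive (bc M L.ε) (bc_open L.ε) (bc_cover L.ε_pos)
    (ω - Ψ) hcoc 0 hsmall
  have h1 : evC c (ω - Ψ) = 0 := by
    rw [← hχ]
    change H35.ev (n + 1) (cob n χ) c = 0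
    rw [H35.ev_cob, hc.1, map_zero]
  rw [map_sub, sub_eq_zero] at h1
  change H35.ev (n + 1) ω c = _ at h1
  have h2 : evC c Ψ = ∑ z ∈ Z, ∑ s, G z s * ((H35.ev (n + 1) (ψ z s) c : ℤ) : ℝ) := by
    simp only [Ψ, map_sum, evC_cmC, hgg]
  rw [h1, h2]
  calc |∑ z ∈ Z, ∑ s, G z s * ((H35.ev (n + 1) (ψ z s) c : ℤ) : ℝ)|
      ≤ ∑ z ∈ Z, ∑ s : Fin (n + 1) → Bool, B * (W : ℝ) := by
        refine (Finset.abs_sum_le_sum_abs _ _).trans (Finset.sum_le_sum fun z hz => ?_)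
        refine (Finset.abs_sum_le_sum_abs _ _).trans (Finset.sum_le_sum fun s _ => ?_)
        rw [abs_mul]
        have h3 : |((H35.ev (n + 1) (ψ z s) c : ℤ) : ℝ)| ≤ (W : ℝ) := by
          have h4 := (hψ z s hz).2.2
          rw [← Int.cast_abs]
          exact_mod_cast h4
        exact mul_le_mul (hG z hz s) h3 (abs_nonneg _) hB
    _ = 2 ^ (n + 1) * W * Z.card * B := by
        rw [Finset.sum_const, Finset.sum_const, Finset.card_univ, Fintype.card_fun,
          Fintype.card_bool, Fintype.card_fin, nsmul_eq_mul, nsmul_eq_mul]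
        push_cast
        ring

end

end Pool.Agent.Lib.MP_72b724_gt.H68
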